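import Mathlib

/-!
Finite computations on words of length 8 (numbers below 256) with respect to the bitwise
exclusive or.
-/

set_option autoImplicit false

namespace Pool.Agent.Lib.MP_64e474_co

/-- The set of words of length 8 of Hamming weight 1, 2, 7 or 8, as a bit mask. -/
def maskW : ℕ := 0xe88080008000000180000001000101178000000100010117000101170117177e

/-- Exchange of adjacent blocks of length `2 ^ i` (with `M` the mask of the lower blocks). -/
def swp (i M m : ℕ) : ℕ := ((m >>> (2 ^ i)) &&& M) ||| ((m &&& M) <<< (2 ^ i))

/-- The translate of `maskW` by `z`. -/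
def tr (z : ℕ) : ℕ :=
  let m0 := maskW
  let m1 := if z.testBit 0 then
    swp 0 0x5555555555555555555555555555555555555555555555555555555555555555 m0 else m0
  let m2 := if z.testBit 1 then
    swp 1 0x3333333333333333333333333333333333333333333333333333333333333333 m1 else m1
  let m3 := if z.testBit 2 then
    swp 2 0xf0f0f0f0f0f0f0f0f0f0f0f0f0f0f0f0f0f0f0f0f0f0f0f0f0f0f0f0f0f0f0f m2 else m2
  let m4 := if z.testBit 3 then
    swp 3 0xff00ff00ff00ff00ff00ff00ff00ff00ff00ff00ff00ff00ff00ff00ff00ff m3 else m3
  let m5 := if z.testBit 4 then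
    swp 4 0xffff0000ffff0000ffff0000ffff0000ffff0000ffff0000ffff0000ffff m4 else m4
  let m6 := if z.testBit 5 then
    swp 5 0xffffffff00000000ffffffff00000000ffffffff00000000ffffffff m5 else m5
  let m7 := if z.testBit 6 then
    swp 6 0xffffffffffffffff0000000000000000ffffffffffffffff m6 else m6
  if z.testBit 7 then swp 7 0xffffffffffffffffffffffffffffffff m7 else m7

/-- Hamming weight of a number below 512. -/
def wt (n : ℕ) : ℕ := (List.range 9).countP (fun i => n.testBit i)

theorem maskW_spec : ∀ n < 256, maskW.testBit n =
    (wt n == 1 || wt n == 2 || wt n == 7 || wt n == 8) := by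
  decide +kernel

theorem tr_lt : ∀ z < 256, tr z < 2 ^ 256 := by
  decide +kernel

theorem tr_testBit : ∀ z < 256, ∀ x < 256, (tr z).testBit x = maskW.testBit (x ^^^ z) := by
  decide +kernel

theorem count_common : ∀ z < 256,
    (∑ x ∈ Finset.range 256, if maskW.testBit x && maskW.testBit (x ^^^ z) then 1 else 0) =
      6 + (if maskW.testBit z then 10 else 0) + (if z = 0 then 39 else 0) := by
  decide +kernel

theorem count_second : ∀ z < 256,
    146 ≤ (∑ y ∈ Finset.range 256, if (maskW &&& tr z &&& tr y) != 0 then 1 else 0) := by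
  decide +kernel

end Pool.Agent.Lib.MP_64e474_co
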