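import Mathlib

/-!
Warmth of a graph (Brightwell-Winkler), the neighborhood complex (Lovasz), its geometric
realization, and the connectivity of a space.
-/

set_option autoImplicit false

namespace Pool.Agent.Lib.MP_64e474_co

open scoped Topology

/-- The infinite rooted tree in which every vertex has exactly `d` children: the vertices are the
finite words over `Fin d`, the root is the empty word `[]`, and the children of a word `u` are the
words `u ++ [i]`, `i : Fin d`. -/
def branchTree (d : ℕ) : SimpleGraph (List (Fin d)) where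
  Adj u v := (∃ i, v = u ++ [i]) ∨ (∃ i, u = v ++ [i])
  symm := ⟨fun _ _ h => h.symm⟩
  loopless := ⟨by
    rintro u (⟨i, h⟩ | ⟨i, h⟩) <;>
    · have := congrArg List.length h
      simp at this⟩

/-- A homomorphism from the tree `T^d` to `G` is cold if there is a vertex `a` of `G` such that
for every `k ≥ 1` no homomorphism `ψ` both agrees with `φ` on all vertices at distance `k` from
the root and maps the root to `a`. -/
def IsCold {V : Type} (G : SimpleGraph V) {d : ℕ} (φ : branchTree d →g G) : Prop :=
  ∃ a : V, ∀ k : ℕ, 1 ≤ k →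
    ¬ ∃ ψ : branchTree d →g G,
      (∀ v : List (Fin d), (branchTree d).dist [] v = k → ψ v = φ v) ∧ ψ [] = a

/-- For `d ≥ 2`, the graph `G` is `d`-warm if no homomorphism from `T^(d-2)` to `G` is cold. -/
def IsWarm {V : Type} (d : ℕ) (G : SimpleGraph V) : Prop :=
  ∀ φ : branchTree (d - 2) →g G, ¬ IsCold G φ

/-- The warmth of `G`: the largest (supremum in the extended reals) `d ≥ 2` for which `G` is
`d`-warm. -/
noncomputable def warmth {V : Type} (G : SimpleGraph V) : EReal :=
  sSup {r : EReal | ∃ d : ℕ, 2 ≤ d ∧ IsWarm d G ∧ r = ((d : ℝ) : EReal)}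

/-- The neighborhood complex of `G`: its faces are the nonempty finite vertex sets that have a
common neighbor in `G`. -/
def nbhdComplex {V : Type} (G : SimpleGraph V) : PreAbstractSimplicialComplex V where
  faces := {s | s.Nonempty ∧ ∃ y, ∀ x ∈ s, G.Adj y x}
  isRelLowerSet_faces := by
    rintro s ⟨hs, y, hy⟩
    exact ⟨hs, fun t hts ht => ⟨ht, y, fun x hx => hy x (hts hx)⟩⟩

/-- The geometric realization of a simplicial complex on a finite vertex type, as a subspace of
`V → ℝ`: the families of barycentric coordinates whose support is a face. -/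
def realization {V : Type} [Fintype V] (K : PreAbstractSimplicialComplex V) : Set (V → ℝ) :=
  {f | (∀ v, 0 ≤ f v) ∧ ∑ v, f v = 1 ∧ ∃ s ∈ K.faces, ∀ v, f v ≠ 0 ↔ v ∈ s}

/-- A space is `k`-connected if its homotopy groups (sets, for `i = 0`) `π_i` are trivial for all
base points and all `0 ≤ i ≤ k`. -/
def IsKConnected (k : ℤ) (X : Type) [TopologicalSpace X] : Prop :=
  ∀ i : ℕ, (i : ℤ) ≤ k → ∀ x : X, Subsingleton (π_ i X x)

/-- The connectivity of a space `X`: the largest (supremum in the extended reals) `k ≥ -1` such
that `X` is `k`-connected. -/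
noncomputable def conn (X : Type) [TopologicalSpace X] : EReal :=
  sSup {r : EReal | ∃ k : ℤ, -1 ≤ k ∧ IsKConnected k X ∧ r = ((k : ℝ) : EReal)}

end Pool.Agent.Lib.MP_64e474_co
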