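import Mathlib
import Pool.Agent.Lib.MP_64e474_co.Defs

/-!
Coverings of neighborhood complexes induced by coverings of graphs without short non-closing
walks, and non-triviality of the fundamental group of the base.
-/

set_option autoImplicit false
set_option linter.unusedSectionVars false
set_option linter.deprecated false
set_option linter.unusedVariables false

namespace Pool.Agent.Lib.MP_64e474_co

open scoped Topology
open Finset

section General

variable {V : Type} [Fintype V] (G : SimpleGraph V)

theorem mem_real_iff (f : V → ℝ) : f ∈ realization (nbhdComplex G) ↔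
    (∀ v, 0 ≤ f v) ∧ ∑ v, f v = 1 ∧ ∃ y, ∀ v, f v ≠ 0 → G.Adj y v := by
  classical
  constructor
  · rintro ⟨h0, h1, s, ⟨_, y, hy⟩, hs⟩
    exact ⟨h0, h1, y, fun v hv => hy v ((hs v).mp hv)⟩
  · rintro ⟨h0, h1, y, hy⟩
    refine ⟨h0, h1, univ.filter (fun v => f v ≠ 0), ⟨?_, y, ?_⟩, ?_⟩
    · by_contra hne
      rw [Finset.not_nonempty_iff_eq_empty] at hne
      have : ∑ v, f v = 0 := by
        apply Finset.sum_eq_zero
        intro v _
        by_contra hv
        have : v ∈ univ.filter (fun v => f v ≠ 0) := by simp [hv]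
        rw [hne] at this
        exact absurd this (Finset.notMem_empty v)
      rw [h1] at this
      exact one_ne_zero this
    · intro v hv
      simp only [mem_filter, mem_univ, true_and] at hv
      exact hy v hv
    · intro v
      simp

theorem isCompact_real : IsCompact (realization (nbhdComplex G)) := by
  have h : realization (nbhdComplex G) =
      stdSimplex ℝ V ∩ ⋃ y, {f : V → ℝ | ∀ v, ¬ G.Adj y v → f v = 0} := by
    ext f
    rw [mem_real_iff]
    simp only [Set.mem_inter_iff, Set.mem_iUnion, stdSimplex, Set.mem_setOf_eq, and_assoc]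
    constructor
    · rintro ⟨h0, h1, y, hy⟩
      exact ⟨h0, h1, y, fun v hv => by_contra fun hc => hv (hy v hc)⟩
    · rintro ⟨h0, h1, y, hy⟩
      exact ⟨h0, h1, y, fun v hv => by_contra fun hc => hv (hy v hc)⟩
  rw [h]
  apply (isCompact_stdSimplex ℝ V).inter_right
  apply isClosed_iUnion_of_finite
  intro y
  have h2 : {f : V → ℝ | ∀ v, ¬ G.Adj y v → f v = 0} =
      ⋂ v, ⋂ (_ : ¬ G.Adj y v), {f : V → ℝ | f v = 0} := by
    ext f
    simp
  rw [h2]
  apply isClosed_iInter
  intro v
  apply isClosed_iInter
  intro _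
  exact isClosed_eq (continuous_apply v) continuous_const

theorem joined_of_common (f g : V → ℝ) (hf0 : ∀ v, 0 ≤ f v) (hf1 : ∑ v, f v = 1)
    (hg0 : ∀ v, 0 ≤ g v) (hg1 : ∑ v, g v = 1) (y : V) (hf : ∀ v, f v ≠ 0 → G.Adj y v)
    (hg : ∀ v, g v ≠ 0 → G.Adj y v) : JoinedIn (realization (nbhdComplex G)) f g := by
  apply JoinedIn.of_segment_subset
  rintro h ⟨a, b, ha, hb, hab, rfl⟩
  rw [mem_real_iff]
  refine ⟨?_, ?_, y, ?_⟩
  · intro v
    simp only [Pi.add_apply, Pi.smul_apply, smul_eq_mul]
    have := hf0 v
    have := hg0 v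
    positivity
  · simp only [Pi.add_apply, Pi.smul_apply, smul_eq_mul, Finset.sum_add_distrib,
      ← Finset.mul_sum, hf1, hg1]
    linarith
  · intro v hv
    by_cases h1 : f v = 0
    · by_cases h2 : g v = 0
      · exfalso
        apply hv
        simp [h1, h2]
      · exact hg v h2
    · exact hf v h1

variable [DecidableEq V]

/-- The vertex `u` as a point of the realization. -/
def vert (u : V) : V → ℝ := fun v => if v = u then 1 else 0

theorem vert_nonneg (u v : V) : 0 ≤ vert u v := by
  unfold vert
  split_ifs <;> norm_num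

theorem vert_sum (u : V) : ∑ v, vert u v = 1 := by
  simp [vert]

theorem vert_ne {u v : V} (h : vert u v ≠ 0) : v = u := by
  by_contra hc
  apply h
  simp [vert, hc]

theorem vert_mem {u y : V} (h : G.Adj y u) : vert u ∈ realization (nbhdComplex G) := by
  rw [mem_real_iff]
  exact ⟨vert_nonneg u, vert_sum u, y, fun v hv => by rw [vert_ne hv]; exact h⟩

/-- having a common neighbour -/
def Com (u v : V) : Prop := ∃ y, G.Adj y u ∧ G.Adj y v

theorem joined_vert {u v : V} (h : Com G u v) :
    JoinedIn (realization (nbhdComplex G)) (vert u) (vert v) := by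
  obtain ⟨y, hu, hv⟩ := h
  exact joined_of_common G _ _ (vert_nonneg u) (vert_sum u) (vert_nonneg v) (vert_sum v) y
    (fun w hw => by rw [vert_ne hw]; exact hu) (fun w hw => by rw [vert_ne hw]; exact hv)

theorem isPathConnected_real (o : V) (hne : ∀ v, ∃ y, G.Adj y v)
    (hconn : ∀ v, Relation.ReflTransGen (Com G) o v) :
    IsPathConnected (realization (nbhdComplex G)) := by
  obtain ⟨yo, hyo⟩ := hne o
  refine ⟨vert o, vert_mem G hyo, ?_⟩
  intro f hf
  have hjv : ∀ v, JoinedIn (realization (nbhdComplex G)) (vert o) (vert v) := by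
    intro v
    induction hconn v with
    | refl => exact JoinedIn.refl (vert_mem G hyo)
    | tail _ h ih => exact ih.trans (joined_vert G h)
  have hf' := (mem_real_iff G f).mp hf
  obtain ⟨h0, h1, y, hy⟩ := hf'
  obtain ⟨v, hv⟩ : ∃ v, f v ≠ 0 := by
    by_contra hc
    push Not at hc
    simp [hc] at h1
  exact (hjv v).trans (joined_of_common G _ _ (vert_nonneg v) (vert_sum v) h0 h1 y
    (fun w hw => by rw [vert_ne hw]; exact hy v hv) hy)

end General

section Covering

variable {U V : Type} [Fintype U] [Fintype V] [DecidableEq U] [DecidableEq V]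
  (GU : SimpleGraph U) (GV : SimpleGraph V) (p : U → V)

/-- Push-forward of barycentric coordinates. -/
noncomputable def push (f : U → ℝ) : V → ℝ := fun v => ∑ u, if p u = v then f u else 0

open Classical in
/-- The local section near a vertex `u0`. -/
noncomputable def pull (u0 : U) (g : V → ℝ) : U → ℝ :=
  fun u => if Com GU u0 u then g (p u) else 0

/-- The hypotheses on `p`: it is a covering of graphs, without identifications at distance
at most four. -/
structure Good : Prop where
  hom : ∀ u u', GU.Adj u u' → GV.Adj (p u) (p u')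
  lift : ∀ u v, GV.Adj (p u) v → ∃ u', GU.Adj u u' ∧ p u' = v
  inj : ∀ u u' u'', Com GU u u' → Com GU u u'' → p u' = p u'' → u' = u''

variable {GU GV p}

theorem push_mem (hp : Good GU GV p) {f : U → ℝ} (hf : f ∈ realization (nbhdComplex GU)) :
    push p f ∈ realization (nbhdComplex GV) := by
  rw [mem_real_iff] at hf ⊢
  obtain ⟨h0, h1, y, hy⟩ := hf
  refine ⟨?_, ?_, p y, ?_⟩
  · intro v
    apply Finset.sum_nonneg
    intro u _
    split_ifs
    · exact h0 u
    · exact le_refl _
  · unfold push
    rw [Finset.sum_comm]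
    simp [h1]
  · intro v hv
    unfold push at hv
    obtain ⟨u, _, hu⟩ := Finset.exists_ne_zero_of_sum_ne_zero hv
    by_cases hpu : p u = v
    · rw [if_pos hpu] at hu
      rw [← hpu]
      exact hp.hom _ _ (hy u hu)
    · rw [if_neg hpu] at hu
      exact absurd rfl hu

theorem pull_facts (hp : Good GU GV p) {g : V → ℝ} (hg : g ∈ realization (nbhdComplex GV))
    {u0 : U} (h : g (p u0) ≠ 0) :
    ∃ y, GU.Adj y u0 ∧ (∀ v, g v ≠ 0 → ∃ u, GU.Adj y u ∧ p u = v) := by
  rw [mem_real_iff] at hg
  obtain ⟨_, _, y, hy⟩ := hg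
  obtain ⟨y', hy', hpy⟩ := hp.lift u0 y ((hy _ h).symm)
  refine ⟨y', hy'.symm, ?_⟩
  intro v hv
  have := hy v hv
  rw [← hpy] at this
  exact hp.lift y' v this

theorem push_pull (hp : Good GU GV p) {g : V → ℝ} (hg : g ∈ realization (nbhdComplex GV))
    {u0 : U} (h : g (p u0) ≠ 0) : push p (pull GU p u0 g) = g := by
  obtain ⟨y, hy0, hy⟩ := pull_facts hp hg h
  funext v
  unfold push pull
  by_cases hv : g v = 0
  · rw [hv]
    apply Finset.sum_eq_zero
    intro u _
    split_ifs with h1 h2
    · rw [h1, hv]
    · rfl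
    · rfl
  · obtain ⟨u, hu, hpu⟩ := hy v hv
    rw [Finset.sum_eq_single u]
    · rw [if_pos hpu, if_pos ⟨y, hy0, hu⟩, hpu]
    · intro u' _ hne
      split_ifs with h1 h2
      · exfalso
        exact hne (hp.inj u0 u' u h2 ⟨y, hy0, hu⟩ (h1.trans hpu.symm))
      · rfl
      · rfl
    · intro hc
      exact absurd (mem_univ u) hc

theorem pull_mem (hp : Good GU GV p) {g : V → ℝ} (hg : g ∈ realization (nbhdComplex GV))
    {u0 : U} (h : g (p u0) ≠ 0) : pull GU p u0 g ∈ realization (nbhdComplex GU) := by
  obtain ⟨y, hy0, hy⟩ := pull_facts hp hg h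
  have hpp := push_pull hp hg h
  have hg' := (mem_real_iff GV g).mp hg
  obtain ⟨h0, h1, _⟩ := hg'
  rw [mem_real_iff]
  refine ⟨?_, ?_, y, ?_⟩
  · intro u
    unfold pull
    split_ifs
    · exact h0 _
    · exact le_refl _
  · rw [← h1]
    conv_rhs => rw [← hpp]
    unfold push
    rw [Finset.sum_comm]
    simp
  · intro u hu
    unfold pull at hu
    by_cases hc : Com GU u0 u
    · rw [if_pos hc] at hu
      obtain ⟨u', hu', hpu'⟩ := hy _ hu
      have : u' = u := hp.inj u0 u' u ⟨y, hy0, hu'⟩ hc hpu'
      rw [← this]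
      exact hu'
    · rw [if_neg hc] at hu
      exact absurd rfl hu

theorem pull_push (hp : Good GU GV p) {f : U → ℝ} (hf : f ∈ realization (nbhdComplex GU))
    {u0 : U} (h : f u0 ≠ 0) : pull GU p u0 (push p f) = f := by
  have hf' := (mem_real_iff GU f).mp hf
  obtain ⟨_, _, y, hy⟩ := hf'
  have hcom : ∀ u, f u ≠ 0 → Com GU u0 u := fun u hu => ⟨y, hy u0 h, hy u hu⟩
  funext u
  unfold pull
  by_cases hc : Com GU u0 u
  · rw [if_pos hc]
    unfold push
    rw [Finset.sum_eq_single u]
    · rw [if_pos rfl]
    · intro u' _ hne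
      split_ifs with h1
      · by_contra hfu'
        exact hne (hp.inj u0 u' u (hcom u' hfu') hc h1)
      · rfl
    · intro hc
      exact absurd (mem_univ u) hc
  · rw [if_neg hc]
    by_contra hfu
    exact hc (hcom u (Ne.symm hfu))

theorem push_ne (hp : Good GU GV p) {f : U → ℝ} (hf : f ∈ realization (nbhdComplex GU))
    {u0 : U} (h : f u0 ≠ 0) : push p f (p u0) ≠ 0 := by
  have h0 := ((mem_real_iff GU f).mp hf).1
  unfold push
  have h1 : f u0 ≤ ∑ u, if p u = p u0 then f u else 0 := by
    have h2 := Finset.single_le_sum (f := fun u => if p u = p u0 then f u else 0)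
      (fun u _ => by
        show 0 ≤ if p u = p u0 then f u else 0
        split_ifs
        · exact h0 u
        · exact le_refl _) (mem_univ u0)
    simpa using h2
  have h3 : 0 < f u0 := lt_of_le_of_ne (h0 u0) (Ne.symm h)
  exact (lt_of_lt_of_le h3 h1).ne'

theorem pull_ne (hp : Good GU GV p) {g : V → ℝ} (hg : g ∈ realization (nbhdComplex GV))
    {u0 : U} (h : g (p u0) ≠ 0) : pull GU p u0 g u0 ≠ 0 := by
  obtain ⟨y, hy0, _⟩ := pull_facts hp hg h
  unfold pull
  rw [if_pos ⟨y, hy0, hy0⟩]
  exact h

theorem continuous_push : Continuous (push p : (U → ℝ) → V → ℝ) := by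
  apply continuous_pi
  intro v
  unfold push
  apply continuous_finset_sum
  intro u _
  split_ifs
  · exact continuous_apply u
  · exact continuous_const

theorem continuous_pull (u0 : U) : Continuous (pull GU p u0 : (V → ℝ) → U → ℝ) := by
  apply continuous_pi
  intro u
  unfold pull
  split_ifs
  · exact continuous_apply _
  · exact continuous_const

/-- The induced map of realizations. -/
noncomputable def pushMap (hp : Good GU GV p) :
    realization (nbhdComplex GU) → realization (nbhdComplex GV) :=
  fun f => ⟨push p f.1, push_mem hp f.2⟩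

theorem continuous_pushMap (hp : Good GU GV p) : Continuous (pushMap hp) :=
  (continuous_push.comp continuous_subtype_val).subtype_mk _

open Classical in
/-- The local homeomorphism near a vertex. -/
noncomputable def localHomeo (hp : Good GU GV p) (u0 : U)
    (f0 : realization (nbhdComplex GU)) :
    OpenPartialHomeomorph (realization (nbhdComplex GU)) (realization (nbhdComplex GV)) where
  toFun := pushMap hp
  invFun g := if h : g.1 (p u0) ≠ 0 then ⟨pull GU p u0 g.1, pull_mem hp g.2 h⟩ else f0
  source := {f | f.1 u0 ≠ 0}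
  target := {g | g.1 (p u0) ≠ 0}
  map_source' f hf := push_ne hp f.2 hf
  map_target' g hg := by
    have hg' : g.1 (p u0) ≠ 0 := hg
    rw [dif_pos hg']
    exact pull_ne hp g.2 hg'
  left_inv' f hf := by
    have h1 : (pushMap hp f).1 (p u0) ≠ 0 := push_ne hp f.2 hf
    rw [dif_pos h1]
    apply Subtype.ext
    exact pull_push hp f.2 hf
  right_inv' g hg := by
    have hg' : g.1 (p u0) ≠ 0 := hg
    rw [dif_pos hg']
    apply Subtype.ext
    exact push_pull hp g.2 hg'
  open_source := by
    have : IsOpen ((fun f : realization (nbhdComplex GU) => f.1 u0) ⁻¹' {x | x ≠ 0}) :=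
      isOpen_ne.preimage ((continuous_apply u0).comp continuous_subtype_val)
    exact this
  open_target := by
    have : IsOpen ((fun f : realization (nbhdComplex GV) => f.1 (p u0)) ⁻¹' {x | x ≠ 0}) :=
      isOpen_ne.preimage ((continuous_apply (p u0)).comp continuous_subtype_val)
    exact this
  continuousOn_toFun := (continuous_pushMap hp).continuousOn
  continuousOn_invFun := by
    rw [continuousOn_iff_continuous_restrict]
    have h1 : Continuous (fun g : {g : realization (nbhdComplex GV) | g.1 (p u0) ≠ 0} =>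
        (⟨pull GU p u0 g.1.1, pull_mem hp g.1.2 g.2⟩ : realization (nbhdComplex GU))) :=
      ((continuous_pull u0).comp
        (continuous_subtype_val.comp continuous_subtype_val)).subtype_mk _
    convert h1 using 1
    funext g
    have hg' : g.1.1 (p u0) ≠ 0 := g.2
    simp only [Set.restrict_apply]
    rw [dif_pos hg']

theorem isCoveringMap_pushMap (hp : Good GU GV p) : IsCoveringMap (pushMap hp) := by
  have : CompactSpace (realization (nbhdComplex GU)) :=
    isCompact_iff_compactSpace.mp (isCompact_real GU)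
  rw [← isLocalHomeomorph_iff_isCoveringMap]
  apply IsLocalHomeomorph.mk
  intro f
  obtain ⟨u0, hu0⟩ : ∃ u, f.1 u ≠ 0 := by
    by_contra hc
    push Not at hc
    have h1 := ((mem_real_iff GU f.1).mp f.2).2.1
    simp [hc] at h1
  exact ⟨localHomeo hp u0 f, hu0, fun _ _ => rfl⟩

theorem eq_of_subsingleton {E X : Type} [TopologicalSpace E] [TopologicalSpace X] {P : E → X}
    (cov : IsCoveringMap P) {e1 e2 : E} (h : P e1 = P e2) (γ : Path e1 e2)
    (hs : Subsingleton (FundamentalGroup X (P e1))) : e1 = e2 := by
  let x := P e1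
  let Γ : Path.Homotopic.Quotient e1 e2 := Path.Homotopic.Quotient.mk γ
  let q : Path.Homotopic.Quotient x x := (Γ.map ⟨P, cov.continuous⟩).cast rfl h
  have hq : q = Path.Homotopic.Quotient.refl x := by
    have hs' : Subsingleton (Path.Homotopic.Quotient x x) := hs
    exact Subsingleton.elim _ _
  have key := cov.monodromy_eq_of_map_eq (x := x) (y := x) (γ := q) (ex := ⟨e1, rfl⟩)
    (ey := ⟨e2, h.symm⟩) Γ (by
      simp only [q, Path.Homotopic.Quotient.cast_cast]
      exact (Path.Homotopic.Quotient.cast_rfl_rfl _).symm)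
  rw [hq, cov.monodromy_refl] at key
  exact congrArg Subtype.val key

/-- If the realization upstairs is path connected and two different vertices upstairs are
identified, then the fundamental group downstairs is not trivial. -/
theorem pi_one_nontrivial (hp : Good GU GV p)
    (hpc : IsPathConnected (realization (nbhdComplex GU))) {u1 u2 : U} (hne : u1 ≠ u2)
    (hpu : p u1 = p u2) {y1 y2 : U} (h1 : GU.Adj y1 u1) (h2 : GU.Adj y2 u2) :
    ∃ x : realization (nbhdComplex GV), ¬ Subsingleton (π_ 1 (realization (nbhdComplex GV)) x) := by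
  let e1 : realization (nbhdComplex GU) := ⟨vert u1, vert_mem GU h1⟩
  let e2 : realization (nbhdComplex GU) := ⟨vert u2, vert_mem GU h2⟩
  have hpush : ∀ u, push p (vert u) = vert (p u) := by
    intro u
    funext v
    unfold push vert
    rw [Finset.sum_eq_single u]
    · simp only [if_true, eq_comm]
    · intro b _ hb
      simp [hb]
    · intro hc
      exact absurd (mem_univ u) hc
  have heq : pushMap hp e1 = pushMap hp e2 := by
    apply Subtype.ext
    show push p (vert u1) = push p (vert u2)
    rw [hpush, hpush, hpu]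
  refine ⟨pushMap hp e1, ?_⟩
  intro hs
  have hs' : Subsingleton (FundamentalGroup (realization (nbhdComplex GV)) (pushMap hp e1)) :=
    HomotopyGroup.pi1EquivFundamentalGroup.symm.subsingleton
  have : PathConnectedSpace (realization (nbhdComplex GU)) :=
    isPathConnected_iff_pathConnectedSpace.mp hpc
  have he := eq_of_subsingleton (isCoveringMap_pushMap hp) heq (PathConnectedSpace.somePath e1 e2) hs'
  have hv : vert u1 u1 = vert u2 u1 := congrFun (congrArg Subtype.val he) u1
  simp [vert, hne] at hv

end Covering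

end Pool.Agent.Lib.MP_64e474_co
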