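import Mathlib
import Pool.Agent.Lib.MP_64e474_co.Comp

/-!
The folded halved 10-cube as the Cayley graph on words of length 8 with respect to the words of
weight 1, 2, 7, 8; counting lemmas for it.
-/

set_option autoImplicit false

namespace Pool.Agent.Lib.MP_64e474_co

open Finset

/-- The folded halved 10-cube. -/
def H : SimpleGraph (BitVec 8) where
  Adj x y := maskW.testBit (x ^^^ y).toNat = true
  symm := ⟨by
    intro x y h
    rw [BitVec.xor_comm]
    exact h⟩
  loopless := ⟨by
    intro x h
    rw [BitVec.xor_self] at h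
    revert h
    decide +kernel⟩

instance : DecidableRel H.Adj := fun x y => by
  unfold H
  infer_instance

theorem H_adj (x y : BitVec 8) : H.Adj x y ↔ maskW.testBit (x ^^^ y).toNat = true := Iff.rfl

theorem sum_bitVec {M : Type} [AddCommMonoid M] (f : BitVec 8 → M) :
    ∑ x, f x = ∑ n ∈ range 256, f (BitVec.ofNat 8 n) := by
  symm
  refine Finset.sum_bij (fun n _ => BitVec.ofNat 8 n) (fun _ _ => mem_univ _) ?_ ?_ ?_
  · intro a ha b hb h
    have h2 := congrArg BitVec.toNat h
    simp only [BitVec.toNat_ofNat] at h2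
    simp only [mem_range] at ha hb
    omega
  · intro b _
    exact ⟨b.toNat, mem_range.mpr b.isLt, by simp⟩
  · intro a _
    rfl

/-- adjacency indicator -/
def A (x y : BitVec 8) : ℤ := if H.Adj x y then 1 else 0

theorem A_symm (x y : BitVec 8) : A x y = A y x := by
  unfold A
  simp only [H.adj_comm]

/-- Translation by `z` as a permutation. -/
def trans (z : BitVec 8) : BitVec 8 ≃ BitVec 8 where
  toFun x := x ^^^ z
  invFun x := x ^^^ z
  left_inv x := by simp
  right_inv x := by simp

theorem A_trans (x y z : BitVec 8) : A (x ^^^ z) (y ^^^ z) = A x y := by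
  unfold A
  have : (x ^^^ z) ^^^ (y ^^^ z) = x ^^^ y := by
    rw [BitVec.xor_comm y z, BitVec.xor_assoc, ← BitVec.xor_assoc z z y, BitVec.xor_self,
      BitVec.zero_xor]
  simp only [H_adj, this]

theorem sum_A_A (x y : BitVec 8) :
    ∑ t, A t x * A t y = 6 + 10 * A x y + (if x = y then 39 else 0) := by
  have h1 : ∑ t, A t x * A t y = ∑ t, A t 0 * A t (y ^^^ x) := by
    rw [← Equiv.sum_comp (trans x)]
    apply Finset.sum_congr rfl
    intro t _
    have e1 : A ((trans x) t) x = A t 0 := by
      have := A_trans t (0#8) x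
      rw [BitVec.zero_xor] at this
      exact this
    have e2 : A ((trans x) t) y = A t (y ^^^ x) := by
      have := A_trans t (y ^^^ x) x
      rw [BitVec.xor_assoc, BitVec.xor_self, BitVec.xor_zero] at this
      exact this
    rw [e1, e2]
  rw [h1, sum_bitVec]
  set z := y ^^^ x with hz
  have h2 := count_common z.toNat z.isLt
  have h3 : ∑ n ∈ range 256, A (BitVec.ofNat 8 n) 0 * A (BitVec.ofNat 8 n) z =
      ((∑ n ∈ range 256, if maskW.testBit n && maskW.testBit (n ^^^ z.toNat) then 1 else 0 : ℕ)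
        : ℤ) := by
    push_cast
    apply Finset.sum_congr rfl
    intro n hn
    have hn' : n < 256 := mem_range.mp hn
    unfold A
    simp only [H_adj, BitVec.xor_zero, BitVec.toNat_xor, BitVec.toNat_ofNat]
    have hmod : n % 2 ^ 8 = n := Nat.mod_eq_of_lt hn'
    rw [hmod]
    by_cases c1 : maskW.testBit n = true
    · by_cases c2 : maskW.testBit (n ^^^ z.toNat) = true
      · simp [c1, c2]
      · simp [c1, c2]
    · simp [c1]
  rw [h3, h2]
  push_cast
  have h4 : (z.toNat = 0) ↔ x = y := by
    rw [hz]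
    constructor
    · intro h
      have : y ^^^ x = 0 := by
        apply BitVec.eq_of_toNat_eq
        simpa using h
      exact (BitVec.xor_eq_zero_iff.mp this).symm
    · rintro rfl
      simp
  have h5 : (maskW.testBit z.toNat = true) ↔ H.Adj x y := by
    rw [H.adj_comm, H_adj]
  unfold A
  simp only [h4, h5]
  split_ifs <;> simp

/-- The number of neighbours. -/
theorem sum_A (x : BitVec 8) : ∑ t, A t x = 45 := by
  have h := sum_A_A x x
  have h0 : A x x = 0 := by
    unfold A
    simp
  rw [h0] at h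
  simp only [mul_zero, add_zero, if_true] at h
  have h1 : ∀ t, A t x * A t x = A t x := by
    intro t
    unfold A
    split_ifs <;> simp
  simp only [h1] at h
  rw [h]
  norm_num

/-- The neighbourhood of a set. -/
def Nb (S : Finset (BitVec 8)) : Finset (BitVec 8) :=
  univ.filter (fun y => ∃ x ∈ S, H.Adj y x)

theorem expand (S : Finset (BitVec 8)) :
    8100 * (S.card : ℤ) ^ 2 ≤ (Nb S).card * (676 * S.card + 29 * (S.card : ℤ) ^ 2) := by
  set s : ℤ := (S.card : ℤ) with hs
  let f : BitVec 8 → ℤ := fun y => ∑ x ∈ S, A y x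
  let g : BitVec 8 → ℤ := fun y => if y ∈ S then 1 else 0
  let e : ℤ := ∑ y, g y * f y
  have hg1 : ∑ y, g y = s := by
    simp [g, hs]
  have hg2 : ∀ y, g y * g y = g y := by
    intro y
    simp only [g]
    split_ifs <;> simp
  have hf1 : ∑ y, f y = 45 * s := by
    simp only [f]
    rw [Finset.sum_comm]
    simp only [sum_A, sum_const, nsmul_eq_mul]
    rw [hs]
    ring
  have hf2 : ∑ y, f y ^ 2 = 6 * s ^ 2 + 10 * e + 39 * s := by
    have h1 : ∀ y, f y ^ 2 = ∑ x ∈ S, ∑ x' ∈ S, A y x * A y x' := by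
      intro y
      simp only [f, sq, Finset.sum_mul_sum]
    simp only [h1]
    rw [Finset.sum_comm]
    have h2 : ∀ x, ∑ y, ∑ x' ∈ S, A y x * A y x' =
        ∑ x' ∈ S, (6 + 10 * A x x' + (if x = x' then 39 else 0)) := by
      intro x
      rw [Finset.sum_comm]
      apply Finset.sum_congr rfl
      intro x' _
      exact sum_A_A x x'
    rw [Finset.sum_congr rfl (fun x _ => h2 x)]
    simp only [Finset.sum_add_distrib, sum_const, ← Finset.mul_sum, nsmul_eq_mul]
    have h3 : ∑ x ∈ S, ∑ x' ∈ S, A x x' = e := by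
      simp only [e, g, f]
      rw [← Finset.sum_filter_add_sum_filter_not univ (fun y => y ∈ S)]
      have h4 : ∑ y ∈ univ.filter (fun y => y ∉ S), (if y ∈ S then (1:ℤ) else 0) *
          ∑ x ∈ S, A y x = 0 := by
        apply Finset.sum_eq_zero
        intro y hy
        simp only [mem_filter, mem_univ, true_and] at hy
        simp [hy]
      rw [h4, add_zero]
      have h5 : univ.filter (fun y => y ∈ S) = S := by
        ext y
        simp
      rw [h5]
      apply Finset.sum_congr rfl
      intro y hy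
      simp [hy]
    have h6 : ∑ x ∈ S, ∑ x' ∈ S, (if x = x' then (39:ℤ) else 0) = 39 * s := by
      have : ∀ x ∈ S, ∑ x' ∈ S, (if x = x' then (39:ℤ) else 0) = 39 := by
        intro x hx
        simp [hx]
      rw [Finset.sum_congr rfl this]
      simp only [sum_const, nsmul_eq_mul]
      rw [hs]
      ring
    rw [h6, h3]
    rw [← hs]
    ring
  have hcard : (∑ _y : BitVec 8, (1 : ℤ)) = 256 := by
    rw [sum_bitVec]
    simp
  have hfg : ∑ y, f y * g y = e := by
    simp only [e]
    apply Finset.sum_congr rfl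
    intro y _
    ring
  have hsos : 0 ≤ ∑ y, (8 * f y - 104 * g y - s) ^ 2 :=
    Finset.sum_nonneg (fun y _ => sq_nonneg _)
  have hexp : ∑ y, (8 * f y - 104 * g y - s) ^ 2 =
      64 * ∑ y, f y ^ 2 + 10816 * s + s ^ 2 * 256 - 1664 * e - 16 * s * (45 * s) +
        208 * s * s := by
    have h1 : ∀ y, (8 * f y - 104 * g y - s) ^ 2 =
        64 * f y ^ 2 + 10816 * g y + s ^ 2 * 1 - 1664 * (f y * g y) - 16 * s * f y +
          208 * s * g y := by
      intro y
      have := hg2 y
      linear_combination 10816 * this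
    simp only [h1, Finset.sum_add_distrib, Finset.sum_sub_distrib, ← Finset.mul_sum]
    rw [hcard, hg1, hf1, hfg]
  rw [hexp, hf2] at hsos
  have he : 8 * e ≤ 104 * s + s ^ 2 := by nlinarith [hsos]
  -- Cauchy-Schwarz
  have hcs : (∑ y ∈ Nb S, f y) ^ 2 ≤ (Nb S).card * ∑ y ∈ Nb S, f y ^ 2 :=
    sq_sum_le_card_mul_sum_sq
  have hzero : ∀ y, y ∉ Nb S → f y = 0 := by
    intro y hy
    simp only [f]
    apply Finset.sum_eq_zero
    intro x hx
    unfold A
    rw [if_neg]
    intro hadj
    apply hy
    simp only [Nb, mem_filter, mem_univ, true_and]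
    exact ⟨x, hx, hadj⟩
  have hsum1 : ∑ y ∈ Nb S, f y = 45 * s := by
    rw [← hf1]
    apply Finset.sum_subset (subset_univ _)
    intro y _ hy
    exact hzero y hy
  have hsum2 : ∑ y ∈ Nb S, f y ^ 2 = 6 * s ^ 2 + 10 * e + 39 * s := by
    rw [← hf2]
    apply Finset.sum_subset (subset_univ _)
    intro y _ hy
    rw [hzero y hy]
    norm_num
  rw [hsum1, hsum2] at hcs
  have hpos : (0 : ℤ) ≤ ((Nb S).card : ℤ) := Int.natCast_nonneg _
  have h7 : 4 * (6 * s ^ 2 + 10 * e + 39 * s) ≤ 676 * s + 29 * s ^ 2 := by nlinarith [he]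
  have h8 := mul_le_mul_of_nonneg_left h7 hpos
  nlinarith [hcs, h8]

theorem expand' {S : Finset (BitVec 8)} {s t : ℕ} (hs : 0 < s) (hS : s ≤ S.card)
    (ht : (t - 1) * (676 + 29 * s) < 8100 * s) : t ≤ (Nb S).card := by
  by_contra hcon
  push Not at hcon
  have h := expand S
  set a := S.card with ha
  set b := (Nb S).card with hb
  have hpos : 0 < a := lt_of_lt_of_le hs hS
  have h1 : 8100 * a ≤ b * (676 + 29 * a) := by
    have h0 : 8100 * a ^ 2 ≤ b * (676 * a + 29 * a ^ 2) := by exact_mod_cast h
    have h' : a * (8100 * a) ≤ a * (b * (676 + 29 * a)) := by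
      calc a * (8100 * a) = 8100 * a ^ 2 := by ring
        _ ≤ b * (676 * a + 29 * a ^ 2) := h0
        _ = a * (b * (676 + 29 * a)) := by ring
    exact Nat.le_of_mul_le_mul_left h' hpos
  have hb1 : b ≤ t - 1 := by omega
  have h2 : 8100 * a ≤ (t - 1) * (676 + 29 * a) :=
    le_trans h1 (Nat.mul_le_mul_right _ hb1)
  -- the function a ↦ 8100 a - (t-1)(676 + 29 a) is affine with negative value at 0
  have h3 : 29 * (t - 1) < 8100 := by
    by_contra h4
    push Not at h4
    have : 8100 * s ≤ (t - 1) * (676 + 29 * s) := by nlinarith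
    omega
  have h5 : 8100 * (a - s) ≥ (t - 1) * 29 * (a - s) := by
    apply Nat.mul_le_mul_right
    linarith
  obtain ⟨c, hc⟩ : ∃ c, a = s + c := ⟨a - s, by omega⟩
  rw [hc] at h2 h5
  simp only [Nat.add_sub_cancel_left] at h5
  nlinarith

theorem inter_card (X Y : Finset (BitVec 8)) : X.card + Y.card ≤ (X ∩ Y).card + 256 := by
  have h1 := Finset.card_union_add_card_inter X Y
  have h2 : (X ∪ Y).card ≤ 256 := by
    have h3 := Finset.card_le_univ (X ∪ Y)
    have h4 : Fintype.card (BitVec 8) = 256 := by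
      have h5 := sum_bitVec (fun _ => 1)
      simpa using h5
    omega
  omega

theorem Nb_eq_univ {S : Finset (BitVec 8)} (h : 212 ≤ S.card) : Nb S = univ := by
  ext y
  simp only [Nb, mem_filter, mem_univ, true_and, iff_true]
  by_contra hcon
  push Not at hcon
  have h1 : ((univ.filter (fun x => H.Adj x y)).card : ℤ) = 45 := by
    have := sum_A y
    simp only [A] at this
    rw [← this]
    simp
  have h1' : (univ.filter (fun x => H.Adj x y)).card = 45 := by exact_mod_cast h1
  have h2 := inter_card (univ.filter (fun x => H.Adj x y)) S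
  have h3 : (univ.filter (fun x => H.Adj x y)) ∩ S = ∅ := by
    ext x
    simp only [mem_inter, mem_filter, mem_univ, true_and, notMem_empty, iff_false, not_and]
    intro hxy hxS
    exact hcon x hxS ((H.adj_comm _ _).mp hxy)
  rw [h3] at h2
  simp at h2
  omega

/-- Any two neighbourhoods meet in a set whose neighbourhood is large. -/
theorem second (x y : BitVec 8) : 146 ≤ (Nb (Nb {x} ∩ Nb {y})).card := by
  have h := count_second (x ^^^ y).toNat (x ^^^ y).isLt
  have h1 : (Nb (Nb {x} ∩ Nb {y})).card =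
      ∑ n ∈ range 256, if (BitVec.ofNat 8 n ^^^ x) ∈ Nb (Nb {x} ∩ Nb {y}) then 1 else 0 := by
    rw [← sum_bitVec (fun t => if (t ^^^ x) ∈ Nb (Nb {x} ∩ Nb {y}) then 1 else 0)]
    have h2 := Equiv.sum_comp (trans x) (fun t => if t ∈ Nb (Nb {x} ∩ Nb {y}) then 1 else 0)
    have h3 : ∀ t, (trans x) t = t ^^^ x := fun t => rfl
    simp only [h3] at h2
    rw [h2]
    simp
  rw [h1]
  refine le_trans h (Finset.sum_le_sum ?_)
  intro n hn
  have hn' : n < 256 := mem_range.mp hn
  by_cases hc : (maskW &&& tr (x ^^^ y).toNat &&& tr n) = 0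
  · rw [if_neg (by simp only [hc]; decide)]
    exact Nat.zero_le _
  · have hmem : (BitVec.ofNat 8 n ^^^ x) ∈ Nb (Nb {x} ∩ Nb {y}) := by
      obtain ⟨i, hi⟩ := Nat.exists_testBit_of_ne_zero hc
      rw [Nat.testBit_and, Nat.testBit_and, Bool.and_eq_true, Bool.and_eq_true] at hi
      obtain ⟨⟨hi1, hi2⟩, hi3⟩ := hi
      have hi256 : i < 256 := by
        by_contra hge
        push Not at hge
        have : (tr n).testBit i = false :=
          Nat.testBit_lt_two_pow (lt_of_lt_of_le (tr_lt n hn')
            (Nat.pow_le_pow_right (by norm_num) hge))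
        rw [this] at hi3
        exact Bool.noConfusion hi3
      rw [tr_testBit _ (x ^^^ y).isLt _ hi256] at hi2
      rw [tr_testBit _ hn' _ hi256] at hi3
      have hmod : ∀ k, k < 256 → k % 2 ^ 8 = k := fun k hk => Nat.mod_eq_of_lt hk
      -- the common neighbour
      simp only [Nb, mem_filter, mem_univ, true_and, mem_inter, mem_singleton, exists_eq_left]
      refine ⟨BitVec.ofNat 8 i ^^^ x, ⟨?_, ?_⟩, ?_⟩
      · rw [H_adj, BitVec.xor_assoc, BitVec.xor_self, BitVec.xor_zero, BitVec.toNat_ofNat,
          hmod i hi256]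
        exact hi1
      · rw [H_adj, BitVec.xor_assoc, BitVec.toNat_xor, BitVec.toNat_ofNat, hmod i hi256]
        exact hi2
      · rw [H_adj]
        have h5 : (BitVec.ofNat 8 n ^^^ x) ^^^ (BitVec.ofNat 8 i ^^^ x) =
            BitVec.ofNat 8 i ^^^ BitVec.ofNat 8 n := by
          rw [BitVec.xor_comm (BitVec.ofNat 8 i) x, BitVec.xor_assoc,
            ← BitVec.xor_assoc x x, BitVec.xor_self, BitVec.zero_xor, BitVec.xor_comm]
        rw [h5, BitVec.toNat_xor, BitVec.toNat_ofNat, BitVec.toNat_ofNat, hmod i hi256,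
          hmod n hn']
        exact hi3
    rw [if_pos hmem]
    split_ifs <;> norm_num

end Pool.Agent.Lib.MP_64e474_co
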