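import Mathlib
import Pool.Agent.Lib.MP_64e474_co.Defs
import Pool.Agent.Lib.MP_64e474_co.Graph
import Pool.Agent.Lib.MP_64e474_co.Cover

/-!
The double cover of the folded halved 10-cube and the connectivity of its neighborhood complex.
-/

set_option autoImplicit false

namespace Pool.Agent.Lib.MP_64e474_co

open scoped Topology
open Finset

/-- Words of length 9 of Hamming weight 1 or 2. -/
def maskU : ℕ := 0x100000000000000010000000100010117000000000000000100000001000101170000000100010117000101170117177e

/-- Words of length 9 of Hamming weight at most 4. -/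
def maskB : ℕ := 0x100010117000101170117177f000101170117177f0117177f177f7fff000101170117177f0117177f177f7fff0117177f177f7fff177f7fff7fffffff

/-- The folding map on numbers below 512. -/
def foldN (z : ℕ) : ℕ := if z < 256 then z else z ^^^ 511

theorem maskU_spec : ∀ w < 512, maskU.testBit w = (wt w == 1 || wt w == 2) := by
  decide +kernel

theorem fact_hom : ∀ w < 512, maskU.testBit w = true → maskW.testBit (foldN w) = true := by
  decide +kernel

theorem fact_lift : ∀ z < 256, maskW.testBit z = true →
    ∃ w < 512, maskU.testBit w = true ∧ foldN w = z := by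
  decide +kernel

theorem fact_ball : ∀ w1 < 512, maskU.testBit w1 = true → ∀ w2 < 512, maskU.testBit w2 = true →
    maskB.testBit (w1 ^^^ w2) = true := by
  decide +kernel

theorem fact_far : ∀ z < 512, maskB.testBit z = true → ¬ maskB.testBit (z ^^^ 511) = true := by
  decide +kernel

theorem fact_down : ∀ v < 512, v ≠ 0 → (v &&& (v - 1)) < v ∧
    maskU.testBit (((v &&& (v - 1)) ^^^ (if v % 2 = 1 then 2 else 1)) ^^^ (v &&& (v - 1))) = true ∧
    maskU.testBit (((v &&& (v - 1)) ^^^ (if v % 2 = 1 then 2 else 1)) ^^^ v) = true := by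
  decide +kernel

/-- The halved 10-cube: words of length 9, adjacent if they differ in one or two places. -/
def Q : SimpleGraph (BitVec 9) where
  Adj x y := maskU.testBit (x ^^^ y).toNat = true
  symm := ⟨by
    intro x y h
    rw [BitVec.xor_comm]
    exact h⟩
  loopless := ⟨by
    intro x h
    rw [BitVec.xor_self] at h
    revert h
    decide +kernel⟩

/-- The folding map. -/
def fold (z : BitVec 9) : BitVec 8 :=
  z.setWidth 8 ^^^ (if z.getLsbD 8 then 255#8 else 0#8)

theorem fold_xor (x y : BitVec 9) : fold (x ^^^ y) = fold x ^^^ fold y := by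
  unfold fold
  rw [BitVec.getLsbD_xor, BitVec.setWidth_xor]
  have key : ∀ a b c d : BitVec 8, (a ^^^ b) ^^^ (c ^^^ d) = (a ^^^ c) ^^^ (b ^^^ d) := by
    intro a b c d
    rw [BitVec.xor_assoc, BitVec.xor_assoc, ← BitVec.xor_assoc b c d, BitVec.xor_comm b c,
      BitVec.xor_assoc]
  cases x.getLsbD 8 <;> cases y.getLsbD 8
  · simp only [Bool.bne_false, Bool.false_eq_true, if_false]
    rw [key]
    simp
  · simp only [Bool.bne_true, Bool.not_false, Bool.false_eq_true, if_false, if_true]
    rw [key]
    simp
  · simp only [Bool.bne_false, Bool.false_eq_true, if_false, if_true]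
    rw [key]
    simp
  · simp only [bne_self_eq_false, Bool.false_eq_true, if_false, if_true]
    rw [key]
    simp

theorem fold_toNat_aux : ∀ z < 512,
    (fold (BitVec.ofNat 9 z)).toNat = foldN z := by
  decide +kernel

theorem fold_toNat (z : BitVec 9) : (fold z).toNat = foldN z.toNat := by
  have h := fold_toNat_aux z.toNat z.isLt
  rwa [BitVec.ofNat_toNat, BitVec.setWidth_eq] at h

theorem fact_ker : ∀ z < 512, foldN z = 0 → z = 0 ∨ z = 511 := by
  decide +kernel

theorem com_ball {u u' : BitVec 9} (h : Com Q u u') : maskB.testBit (u ^^^ u').toNat = true := by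
  obtain ⟨y, h1, h2⟩ := h
  have h3 := fact_ball _ (y ^^^ u).isLt h1 _ (y ^^^ u').isLt h2
  rw [← BitVec.toNat_xor] at h3
  have h4 : (y ^^^ u) ^^^ (y ^^^ u') = u ^^^ u' := by
    rw [BitVec.xor_comm y u, BitVec.xor_assoc, ← BitVec.xor_assoc y y, BitVec.xor_self,
      BitVec.zero_xor]
  rwa [h4] at h3

theorem good : Good Q H fold where
  hom u u' h := by
    show maskW.testBit (fold u ^^^ fold u').toNat = true
    rw [← fold_xor, fold_toNat]
    exact fact_hom _ (u ^^^ u').isLt h
  lift u v h := by
    obtain ⟨w, hw, hw1, hw2⟩ := fact_lift _ (fold u ^^^ v).isLt h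
    refine ⟨u ^^^ BitVec.ofNat 9 w, ?_, ?_⟩
    · show maskU.testBit (u ^^^ (u ^^^ BitVec.ofNat 9 w)).toNat = true
      rw [← BitVec.xor_assoc, BitVec.xor_self, BitVec.zero_xor, BitVec.toNat_ofNat,
        Nat.mod_eq_of_lt hw]
      exact hw1
    · rw [fold_xor]
      have h1 : fold (BitVec.ofNat 9 w) = fold u ^^^ v := by
        apply BitVec.eq_of_toNat_eq
        rw [fold_toNat_aux w hw, hw2]
      rw [h1, ← BitVec.xor_assoc, BitVec.xor_self, BitVec.zero_xor]
  inj u u' u'' h1 h2 h := by
    have b1 := com_ball h1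
    have b2 := com_ball h2
    have h3 : fold (u' ^^^ u'') = 0#8 := by
      rw [fold_xor, h, BitVec.xor_self]
    have h4 := congrArg BitVec.toNat h3
    rw [fold_toNat] at h4
    have h5 := fact_ker _ (u' ^^^ u'').isLt (by simpa using h4)
    rcases h5 with h5 | h5
    · have : u' ^^^ u'' = 0#9 := by
        apply BitVec.eq_of_toNat_eq
        simpa using h5
      exact BitVec.xor_eq_zero_iff.mp this
    · exfalso
      have h6 : (u ^^^ u'').toNat = (u ^^^ u').toNat ^^^ 511 := by
        rw [← h5, ← BitVec.toNat_xor]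
        congr 1
        rw [BitVec.xor_assoc, ← BitVec.xor_assoc u' u' u'', BitVec.xor_self, BitVec.zero_xor]
      rw [h6] at b2
      exact fact_far _ (u ^^^ u').isLt b1 b2

theorem Q_conn (v : BitVec 9) : Relation.ReflTransGen (Com Q) 0#9 v := by
  have key : ∀ n : ℕ, ∀ v : BitVec 9, v.toNat = n → Relation.ReflTransGen (Com Q) 0#9 v := by
    intro n
    induction n using Nat.strong_induction_on with
    | _ n ih =>
      intro v hv
      by_cases h0 : n = 0
      · have : v = 0#9 := by
          apply BitVec.eq_of_toNat_eq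
          rw [hv, h0]
          rfl
        rw [this]
      · have hlt : n < 512 := by rw [← hv]; exact v.isLt
        obtain ⟨f1, f2, f3⟩ := fact_down n hlt h0
        set m := n &&& (n - 1) with hm
        set c := (if n % 2 = 1 then 2 else 1) with hc
        have hm512 : m < 512 := lt_trans f1 hlt
        have hc512 : c < 512 := by rw [hc]; split_ifs <;> norm_num
        have hmc : m ^^^ c < 512 := Nat.xor_lt_two_pow (n := 9) hm512 hc512
        have hrec := ih m f1 (BitVec.ofNat 9 m) (by
          rw [BitVec.toNat_ofNat]; exact Nat.mod_eq_of_lt hm512)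
        refine hrec.tail ?_
        refine ⟨BitVec.ofNat 9 (m ^^^ c), ?_, ?_⟩
        · show maskU.testBit (BitVec.ofNat 9 (m ^^^ c) ^^^ BitVec.ofNat 9 m).toNat = true
          rw [BitVec.toNat_xor, BitVec.toNat_ofNat, BitVec.toNat_ofNat, Nat.mod_eq_of_lt hmc,
            Nat.mod_eq_of_lt hm512]
          exact f2
        · show maskU.testBit (BitVec.ofNat 9 (m ^^^ c) ^^^ v).toNat = true
          rw [BitVec.toNat_xor, BitVec.toNat_ofNat, Nat.mod_eq_of_lt hmc, hv]
          exact f3
  exact key v.toNat v rfl

theorem Q_nbr (v : BitVec 9) : ∃ y, Q.Adj y v := by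
  refine ⟨1#9 ^^^ v, ?_⟩
  show maskU.testBit ((1#9 ^^^ v) ^^^ v).toNat = true
  rw [BitVec.xor_assoc, BitVec.xor_self, BitVec.xor_zero]
  decide +kernel

theorem exists_pi_one : ∃ x : realization (nbhdComplex H),
    ¬ Subsingleton (π_ 1 (realization (nbhdComplex H)) x) := by
  obtain ⟨y1, h1⟩ := Q_nbr 0#9
  obtain ⟨y2, h2⟩ := Q_nbr 511#9
  exact pi_one_nontrivial good (isPathConnected_real Q 0#9 Q_nbr Q_conn) (u1 := 0#9)
    (u2 := 511#9) (by decide) (by decide) h1 h2

theorem H_com (x y : BitVec 8) : Com H x y := by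
  by_contra hc
  have h := sum_A_A x y
  have h0 : ∑ t, A t x * A t y = 0 := by
    apply Finset.sum_eq_zero
    intro t _
    unfold A
    split_ifs with h1 h2
    · exact absurd ⟨t, h1, h2⟩ hc
    · norm_num
    · norm_num
    · norm_num
  rw [h0] at h
  have h1 : 0 ≤ A x y := by
    unfold A
    split_ifs <;> norm_num
  have h2 : (0 : ℤ) ≤ if x = y then 39 else 0 := by
    split_ifs <;> norm_num
  linarith

theorem isPathConnected_H : IsPathConnected (realization (nbhdComplex H)) := by
  apply isPathConnected_real H 0#8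
  · intro v
    obtain ⟨y, h, _⟩ := H_com v v
    exact ⟨y, h⟩
  · intro v
    exact Relation.ReflTransGen.single (H_com _ _)

theorem conn_eq_zero : conn (realization (nbhdComplex H)) = 0 := by
  apply le_antisymm
  · apply sSup_le
    rintro r ⟨k, _, hk, rfl⟩
    have hk0 : k ≤ 0 := by
      by_contra hc
      push Not at hc
      obtain ⟨x, hx⟩ := exists_pi_one
      exact hx (hk 1 (by exact_mod_cast hc) x)
    have : ((k : ℝ)) ≤ 0 := by exact_mod_cast hk0
    exact_mod_cast this
  · apply le_sSup
    refine ⟨0, by norm_num, ?_, by simp⟩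
    intro i hi x
    have hi0 : i = 0 := by omega
    subst hi0
    have hpc : PathConnectedSpace (realization (nbhdComplex H)) :=
      isPathConnected_iff_pathConnectedSpace.mp isPathConnected_H
    have hs := (pathConnectedSpace_iff_zerothHomotopy.mp hpc).2
    exact HomotopyGroup.pi0EquivZerothHomotopy.subsingleton

end Pool.Agent.Lib.MP_64e474_co
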