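import Mathlib
import Pool.Agent.Lib.MP_64e474_co.Defs
import Pool.Agent.Lib.MP_64e474_co.Graph

/-!
The folded halved 10-cube is 4-warm.
-/

set_option autoImplicit false

namespace Pool.Agent.Lib.MP_64e474_co

open Finset

/-- The set of possible values at the root of maps that agree with `φ` at depth `k`. -/
def reach : ℕ → (List (Fin 2) → BitVec 8) → Finset (BitVec 8)
  | 0, φ => {φ []}
  | k + 1, φ => Nb (reach k (fun u => φ (0 :: u))) ∩ Nb (reach k (fun u => φ (1 :: u)))

theorem reach_spec : ∀ (k : ℕ) (φ : List (Fin 2) → BitVec 8) (x : BitVec 8), x ∈ reach k φ →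
    ∃ ψ : List (Fin 2) → BitVec 8, ψ [] = x ∧
      (∀ u : List (Fin 2), u.length < k → ∀ i, H.Adj (ψ u) (ψ (u ++ [i]))) ∧
      ∀ u : List (Fin 2), k ≤ u.length → ψ u = φ u := by
  intro k
  induction k with
  | zero =>
    intro φ x hx
    refine ⟨φ, ?_, ?_, ?_⟩
    · simp only [reach, mem_singleton] at hx
      exact hx.symm
    · intro u hu
      omega
    · intro u _
      rfl
  | succ k ih =>
    intro φ x hx
    simp only [reach, mem_inter, Nb, mem_filter, mem_univ, true_and] at hx
    obtain ⟨⟨y0, hy0, h0⟩, ⟨y1, hy1, h1⟩⟩ := hx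
    obtain ⟨ψ0, a0, b0, c0⟩ := ih _ y0 hy0
    obtain ⟨ψ1, a1, b1, c1⟩ := ih _ y1 hy1
    refine ⟨fun u => match u with
      | [] => x
      | i :: u => if i = 0 then ψ0 u else ψ1 u, rfl, ?_, ?_⟩
    · intro u hu i
      match u with
      | [] =>
        show H.Adj x (if i = 0 then ψ0 [] else ψ1 [])
        split_ifs
        · rw [a0]; exact h0
        · rw [a1]; exact h1
      | j :: u =>
        show H.Adj (if j = 0 then ψ0 u else ψ1 u)
          (if j = 0 then ψ0 (u ++ [i]) else ψ1 (u ++ [i]))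
        have hu' : u.length < k := by
          simp only [List.length_cons] at hu
          omega
        split_ifs
        · exact b0 u hu' i
        · exact b1 u hu' i
    · intro u hu
      match u with
      | [] =>
        simp at hu
      | j :: u =>
        have hu' : k ≤ u.length := by
          simp only [List.length_cons] at hu
          omega
        show (if j = 0 then ψ0 u else ψ1 u) = φ (j :: u)
        split_ifs with hj
        · rw [c0 u hu', hj]
        · have hj1 : j = 1 := by omega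
          rw [c1 u hu', hj1]

theorem card_Nb_reach_one (φ : List (Fin 2) → BitVec 8) : 146 ≤ (Nb (reach 1 φ)).card :=
  second _ _

theorem reach_step {s t : ℕ} {k : ℕ}
    (h : ∀ φ, s ≤ (Nb (reach k φ)).card) (ht : t + 256 ≤ 2 * s) :
    ∀ φ, t ≤ (reach (k + 1) φ).card := by
  intro φ
  have h1 := inter_card (Nb (reach k (fun u => φ (0 :: u)))) (Nb (reach k (fun u => φ (1 :: u))))
  have h2 := h (fun u => φ (0 :: u))
  have h3 := h (fun u => φ (1 :: u))
  show t ≤ (Nb (reach k (fun u => φ (0 :: u))) ∩ Nb (reach k (fun u => φ (1 :: u)))).card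
  omega

theorem reach_six (φ : List (Fin 2) → BitVec 8) : reach 6 φ = univ := by
  have s2 : ∀ φ, 36 ≤ (reach 2 φ).card := reach_step card_Nb_reach_one (by norm_num)
  have n2 : ∀ φ, 170 ≤ (Nb (reach 2 φ)).card := fun φ =>
    expand' (by norm_num) (s2 φ) (by norm_num)
  have s3 : ∀ φ, 84 ≤ (reach 3 φ).card := reach_step n2 (by norm_num)
  have n3 : ∀ φ, 219 ≤ (Nb (reach 3 φ)).card := fun φ =>
    expand' (by norm_num) (s3 φ) (by norm_num)
  have s4 : ∀ φ, 182 ≤ (reach 4 φ).card := reach_step n3 (by norm_num)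
  have n4 : ∀ φ, 248 ≤ (Nb (reach 4 φ)).card := fun φ =>
    expand' (by norm_num) (s4 φ) (by norm_num)
  have s5 : ∀ φ, 212 ≤ (reach 5 φ).card := fun φ =>
    le_trans (by norm_num) (reach_step n4 (t := 240) (by norm_num) φ)
  show Nb (reach 5 _) ∩ Nb (reach 5 _) = univ
  rw [Nb_eq_univ (s5 _), Nb_eq_univ (s5 _), inter_self]

theorem dist_le_length {d : ℕ} (v : List (Fin d)) : (branchTree d).dist [] v ≤ v.length := by
  have key : ∀ v : List (Fin d), ∃ w : (branchTree d).Walk [] v, w.length = v.length := by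
    intro v
    induction v using List.reverseRecOn with
    | nil => exact ⟨SimpleGraph.Walk.nil, rfl⟩
    | append_singleton u i ih =>
      obtain ⟨w, hw⟩ := ih
      have hadj : (branchTree d).Adj u (u ++ [i]) := Or.inl ⟨i, rfl⟩
      exact ⟨w.concat hadj, by rw [SimpleGraph.Walk.length_concat, hw]; simp⟩
  obtain ⟨w, hw⟩ := key v
  rw [← hw]
  exact SimpleGraph.dist_le w

theorem isWarm_four : IsWarm 4 H := by
  intro φ hcold
  obtain ⟨a, ha⟩ := hcold
  apply ha 6 (by norm_num)
  have hmem : a ∈ reach 6 φ := by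
    rw [reach_six]
    exact mem_univ a
  obtain ⟨ψ, h0, h1, h2⟩ := reach_spec 6 φ a hmem
  have hstep : ∀ (u : List (Fin 2)) (i : Fin 2), H.Adj (ψ u) (ψ (u ++ [i])) := by
    intro u i
    rcases lt_or_ge u.length 6 with hu | hu
    · exact h1 u hu i
    · rw [h2 u hu, h2 (u ++ [i]) (by simp; omega)]
      exact φ.map_adj (Or.inl ⟨i, rfl⟩)
  refine ⟨⟨ψ, ?_⟩, ?_, h0⟩
  · rintro u v (⟨i, rfl⟩ | ⟨i, rfl⟩)
    · exact hstep u i
    · exact (hstep v i).symm
  · intro v hv
    exact h2 v (by rw [← hv]; exact dist_le_length v)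

theorem four_le_warmth : (4 : EReal) ≤ warmth H := by
  apply le_sSup
  refine ⟨4, by norm_num, isWarm_four, ?_⟩
  push_cast
  rfl

end Pool.Agent.Lib.MP_64e474_co
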